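import Mathlib
import Pool.Agent.R621.HS.Bie10

set_option autoImplicit false

/-!
# A bi-embeddability spectrum that is not an isomorphism spectrum

There is a structure `A` whose bi-embeddability spectrum is not the isomorphism spectrum of any
structure, in any computable language.
-/

namespace Pool.Agent.Results.MP_4e0f8a_lc.NotIsoSpectrum

open Pool.Agent.R621.BE

theorem result : ∃ (L : Lng) (A : Strc L), A.univ = Set.univ ∧
    ∀ (L' : Lng) (B : Strc L'),
      {d : TDeg | ∃ C : Strc L, BiEmb A C ∧ deg C.diag = d} ≠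
        {d : TDeg | ∃ C : Strc L', Iso B C ∧ deg C.diag = d} ∧
      {d : TDeg | ∃ C : Strc L, C.univ = Set.univ ∧ BiEmb A C ∧ deg C.diag = d} ≠
        {d : TDeg | ∃ C : Strc L', C.univ = Set.univ ∧ Iso B C ∧ deg C.diag = d} := by
  refine ⟨TL, AA, rfl, fun L' B => ⟨fun h => ?_, fun h => ?_⟩⟩
  · exact iso_not_union B not_red_ab not_red_ba (h.symm.trans biSpec_AA)
  · exact iso_not_union_omega B not_red_ab not_red_ba (h.symm.trans biSpecOmega_AA)

end Pool.Agent.Results.MP_4e0f8a_lc.NotIsoSpectrum
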